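import Mathlib
import Pool.Agent.helper68.RSkelCanon

/-!
# Common retractions of countably many retractional skeletons

Retractional skeletons `S n` inducing the same set always have, on σ-closed cofinal subsets of their index
posets, one and the same set of retractions, and this set is the set of retractions of a faithfully
indexed retractional skeleton `R`. If the indexing of `S n` is injective, `R` is (up to re-indexing) a
subskeleton of `S n`.
-/

set_option autoImplicit false
set_option linter.unusedSectionVars false

open Set Filter Topology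

namespace Pool.Agent.Results.MP_fb95e7_gt.CommonRetractions

open Pool.Agent.helper68

universe u v w

variable {K : Type u} [TopologicalSpace K]

/-- The skeleton `S n`, re-indexed by the product of all the index posets. -/
def prodSkel {Γ : ℕ → Type v} [∀ n, PartialOrder (Γ n)] (S : ∀ n, RetractionalSkeleton K (Γ n))
    (n : ℕ) : RetractionalSkeleton K (∀ m, Γ m) where
  r s := (S n).r (s n)
  nonempty := ⟨fun m => (S m).nonempty.some⟩
  directed := by
    intro s t
    choose q hq using fun m => (S m).directed (s m) (t m)
    exact ⟨q, fun m => (hq m).1, fun m => (hq m).2⟩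
  sigmaComplete := by
    intro s hs
    choose t ht using fun m => (S m).sigmaComplete (fun k => s k m) (fun k l h => hs h m)
    refine ⟨t, ?_⟩
    rw [isLUB_pi]
    intro m
    rw [← Set.range_comp]
    exact ht m
  continuous_r s := (S n).continuous_r _
  idem s := (S n).idem _
  metrizable s := (S n).metrizable _
  comp_right s t h := (S n).comp_right _ _ (h n)
  comp_left s t h := (S n).comp_left _ _ (h n)
  tendsto_sup := by
    intro s t hs ht x
    apply (S n).tendsto_sup' (fun k => s k n) (t n) (fun k l h => hs.monotone h n)
    have := isLUB_pi.mp ht n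
    rw [← Set.range_comp] at this
    exact this
  tendsto_id := by
    intro x
    have h : Tendsto (fun s : (∀ m, Γ m) => s n) atTop atTop := by
      apply Filter.tendsto_atTop_atTop_of_monotone
      · intro s t h
        exact h n
      · intro b
        classical
        refine ⟨Function.update (fun m => (S m).nonempty.some) n b, ?_⟩
        rw [Function.update_self]
    exact ((S n).tendsto_id x).comp h

theorem prodSkel_inducedSet {Γ : ℕ → Type v} [∀ n, PartialOrder (Γ n)]
    (S : ∀ n, RetractionalSkeleton K (Γ n)) (n : ℕ) :
    (prodSkel S n).inducedSet = (S n).inducedSet := by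
  classical
  apply Set.Subset.antisymm
  · intro x hx
    obtain ⟨s, hs⟩ := Set.mem_iUnion.mp hx
    exact Set.mem_iUnion.mpr ⟨s n, hs⟩
  · intro x hx
    obtain ⟨s, hs⟩ := Set.mem_iUnion.mp hx
    refine Set.mem_iUnion.mpr ⟨Function.update (fun m => (S m).nonempty.some) n s, ?_⟩
    change x ∈ Set.range ((S n).r (Function.update (fun m => (S m).nonempty.some) n s n))
    rw [Function.update_self]
    exact hs

/-- **Common retractions.** Let `K` be compact Hausdorff and let `S n` (`n ∈ ℕ`) be retractional
skeletons on `K` inducing the same set. There is a retractional skeleton `R` on `K`, whose index order is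
exactly the order of its retractions (`i ≤ j` iff `R i = R i ∘ R j = R j ∘ R i`), such that for every `n`:
(a) there is a σ-closed cofinal set `Γ'` of indices of `S n` with `{r s | s ∈ Γ'} = {R i | i ∈ Λ}`;
(b) if `s ↦ r s` is injective on the index set of `S n`, then `R` is up to re-indexing a subskeleton
of `S n`. In particular, if this holds for every `n`, then `R` is a common subskeleton. -/
theorem result {K : Type u} [TopologicalSpace K] [CompactSpace K] [T2Space K]
    (Γ : ℕ → Type v) [∀ n, PartialOrder (Γ n)] (S : ∀ n, RetractionalSkeleton K (Γ n))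
    (hD : ∀ n m, (S n).inducedSet = (S m).inducedSet) :
    ∃ (Λ : Type v) (_ : PartialOrder Λ) (R : RetractionalSkeleton K Λ),
      (∀ i j, i ≤ j ↔ (R.r i = R.r i ∘ R.r j ∧ R.r i = R.r j ∘ R.r i)) ∧
      ∀ n, (∃ Γ' : Set (Γ n), SigmaClosed Γ' ∧ IsCofinal Γ' ∧
          (S n).r '' Γ' = Set.range R.r) ∧
        (Function.Injective (S n).r → IsSubskeleton R (S n)) := by
  classical
  -- a skeleton `T` with one index poset mapping to all the `Γ n`
  let A : Set (∀ m, Γ m) := RetractionalSkeleton.agreeSet (prodSkel S)
  have hA1 : SigmaClosed A := RetractionalSkeleton.agreeSet_sigmaClosed (prodSkel S)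
  have hA2 : IsCofinal A := RetractionalSkeleton.agreeSet_isCofinal (prodSkel S) (by
    intro n m
    rw [prodSkel_inducedSet, prodSkel_inducedSet]
    exact hD n m)
  let T : RetractionalSkeleton K A := (prodSkel S 0).pullback A hA1 hA2 (OrderIso.refl A)
  have hT : ∀ (n : ℕ) (i : A), T.r i = (S n).r ((i : ∀ m, Γ m) n) := fun n i => i.2 0 n
  obtain ⟨Λ, _, R, σ, hσ, hRσ, hRle, hRcof, -⟩ := T.exists_canonical
  have hRS : ∀ (n : ℕ) (i : Λ), R.r i = (S n).r ((σ i : ∀ m, Γ m) n) := by
    intro n i
    rw [hRσ, hT n]
  refine ⟨Λ, inferInstance, R, ?_, fun n => ?_⟩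
  · intro i j
    constructor
    · intro h
      exact ⟨R.comp_right i j h, R.comp_left i j h⟩
    · rintro ⟨h, -⟩
      exact hRle i j fun x => (congrFun h x).symm
  · -- the set of all indices of `S n` whose retraction belongs to `R`
    let Γ' : Set (Γ n) := {s | (S n).r s ∈ Set.range R.r}
    have hσc : SigmaClosed Γ' := by
      intro s t hs hsΓ ht
      choose a ha using hsΓ
      have hmono : Monotone a := by
        intro k l hkl
        apply hRle
        intro x
        rw [ha k, ha l]
        exact (S n).apply_right (hs hkl) x
      obtain ⟨b, hb⟩ := R.sigmaComplete a hmono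
      refine ⟨b, ?_⟩
      funext x
      have h1 := R.tendsto_sup' a b hmono hb x
      have h2 := (S n).tendsto_sup' s t hs ht x
      have h3 : (fun k => R.r (a k) x) = fun k => (S n).r (s k) x := by
        funext k
        rw [ha k]
      rw [h3] at h1
      exact tendsto_nhds_unique h1 h2
    have hcof : IsCofinal Γ' := by
      intro s
      obtain ⟨i, hiA, hi⟩ := hA2 (Function.update (fun m => (S m).nonempty.some) n s)
      obtain ⟨t, hit, j, hj⟩ := hRcof ⟨i, hiA⟩
      refine ⟨(t : ∀ m, Γ m) n, ⟨j, ?_⟩, ?_⟩
      · rw [← hj, hT n]
      · have h1 := hi n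
        rw [Function.update_self] at h1
        exact h1.trans (hit n)
    refine ⟨⟨Γ', hσc, hcof, ?_⟩, fun hinj => ?_⟩
    · apply Set.Subset.antisymm
      · rintro _ ⟨s, hs, rfl⟩
        exact hs
      · rintro _ ⟨i, rfl⟩
        exact ⟨(σ i : ∀ m, Γ m) n, ⟨i, hRS n i⟩, (hRS n i).symm⟩
    · -- the index map is an order isomorphism onto `Γ'`
      have hle : ∀ i j : Λ, (σ i : ∀ m, Γ m) n ≤ (σ j : ∀ m, Γ m) n → i ≤ j := by
        intro i j h
        apply hRle
        intro x
        rw [hRS n i, hRS n j]
        exact (S n).apply_right h x
      let f : Λ ↪o Γ n :=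
        { toFun := fun i => (σ i : ∀ m, Γ m) n
          inj' := by
            intro i j hij
            exact le_antisymm (hle i j (le_of_eq hij)) (hle j i (le_of_eq hij.symm))
          map_rel_iff' := by
            intro i j
            exact ⟨fun h => hle i j h, fun h => hσ h n⟩ }
      have hrange : Set.range f = Γ' := by
        apply Set.Subset.antisymm
        · rintro _ ⟨i, rfl⟩
          exact ⟨i, hRS n i⟩
        · rintro s ⟨i, hi⟩
          refine ⟨i, ?_⟩
          apply hinj
          change (S n).r ((σ i : ∀ m, Γ m) n) = (S n).r s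
          rw [← hRS n i, hi]
      refine ⟨Set.range f, ?_, ?_, f.orderIso, ?_⟩
      · rw [hrange]; exact hσc
      · rw [hrange]; exact hcof
      · intro i
        exact hRS n i

end Pool.Agent.Results.MP_fb95e7_gt.CommonRetractions
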