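import Mathlib
import Pool.Agent.helper68.RSkelAgree

/-!
# When does a sequence of retractional skeletons have a common subskeleton?

For a sequence of retractional skeletons inducing the same set, a common subskeleton exists if and only
if the index posets have order isomorphic σ-closed cofinal subsets: the retractions play no role.
-/

set_option autoImplicit false

open Set Filter Topology

namespace Pool.Agent.Results.MP_fb95e7_gt.IndexPosetCriterion

open Pool.Agent.helper68

universe u v w

variable {K : Type u} [TopologicalSpace K]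

/-- **Criterion.** Let `K` be compact Hausdorff and let `S n` (`n ∈ ℕ`), indexed by the poset `Γ n`, be
retractional skeletons on `K` which all induce the same set. Then the `S n` have a common subskeleton iff
there is a poset `Λ` which, for every `n`, is order isomorphic to a σ-closed cofinal subset of `Γ n`. -/
theorem result {K : Type u} [TopologicalSpace K] [CompactSpace K] [T2Space K]
    (Γ : ℕ → Type v) [∀ n, PartialOrder (Γ n)] (S : ∀ n, RetractionalSkeleton K (Γ n))
    (hD : ∀ n m, (S n).inducedSet = (S m).inducedSet) :
    (∃ (Λ : Type w) (_ : PartialOrder Λ) (R : RetractionalSkeleton K Λ),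
        ∀ n, IsSubskeleton R (S n)) ↔
      ∃ (Λ : Type w) (_ : PartialOrder Λ), ∀ n, ∃ Γ' : Set (Γ n),
        SigmaClosed Γ' ∧ IsCofinal Γ' ∧ Nonempty (Λ ≃o Γ') := by
  constructor
  · rintro ⟨Λ, _, R, h⟩
    refine ⟨Λ, inferInstance, fun n => ?_⟩
    obtain ⟨Γ', h1, h2, φ, -⟩ := h n
    exact ⟨Γ', h1, h2, ⟨φ⟩⟩
  · rintro ⟨Λ, _, h⟩
    choose Γ' h1 h2 h3 using h
    have φ : ∀ n, Λ ≃o Γ' n := fun n => (h3 n).some
    -- the pulled back skeletons, all indexed by `Λ`
    let T : ℕ → RetractionalSkeleton K Λ := fun n => (S n).pullback (Γ' n) (h1 n) (h2 n) (φ n)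
    have hT : ∀ n m, (T n).inducedSet = (T m).inducedSet := by
      intro n m
      simp only [T, RetractionalSkeleton.pullback_inducedSet]
      exact hD n m
    let A : Set Λ := RetractionalSkeleton.agreeSet T
    have hA1 : SigmaClosed A := RetractionalSkeleton.agreeSet_sigmaClosed T
    have hA2 : IsCofinal A := RetractionalSkeleton.agreeSet_isCofinal T hT
    refine ⟨A, inferInstance, (T 0).pullback A hA1 hA2 (OrderIso.refl A), fun n => ?_⟩
    -- the embedding of `A` into `Γ n`
    let f : A ↪o Γ n :=
      { toFun := fun i => ((φ n (i : Λ) : Γ' n) : Γ n)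
        inj' := by
          intro i j hij
          exact Subtype.ext ((φ n).injective (Subtype.ext hij))
        map_rel_iff' := by
          intro i j
          exact (φ n).le_iff_le }
    refine ⟨Set.range f, ?_, ?_, f.orderIso, ?_⟩
    · intro s t hs hsA ht
      have ha : ∀ k, ∃ i : A, ((φ n (i : Λ) : Γ' n) : Γ n) = s k := fun k => hsA k
      choose a ha using ha
      have hmono : Monotone fun k => ((a k : A) : Λ) := by
        intro k l hkl
        have := hs hkl
        rw [← ha k, ← ha l] at this
        exact (φ n).le_iff_le.mp this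
      obtain ⟨j, hj1, hj2⟩ := (h1 n).exists_isLUB (φ n) (S n).sigmaComplete _ hmono
      have hjA : j ∈ A := hA1 _ j hmono (fun k => (a k).2) hj1
      have hrange : (Set.range fun k => ((φ n ((a k : A) : Λ) : Γ' n) : Γ n)) = Set.range s := by
        congr 1
        funext k
        exact ha k
      rw [hrange] at hj2
      exact ⟨⟨j, hjA⟩, hj2.unique ht⟩
    · intro s
      obtain ⟨t, ht, hst⟩ := h2 n s
      obtain ⟨i, hi, hti⟩ := hA2 ((φ n).symm ⟨t, ht⟩)
      refine ⟨f ⟨i, hi⟩, ⟨_, rfl⟩, hst.trans ?_⟩
      have := (φ n).monotone hti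
      rw [(φ n).apply_symm_apply] at this
      exact this
    · intro i
      have h4 : (T 0).r (i : Λ) = (T n).r (i : Λ) := i.2 0 n
      exact h4

end Pool.Agent.Results.MP_fb95e7_gt.IndexPosetCriterion
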