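import Mathlib
import Pool.Agent.helper68.RSkelDefs

/-!
# No common subskeleton, on any compact space

For every compact Hausdorff space `K` carrying a retractional skeleton `𝔰` there is a retractional
skeleton `𝔱` on `K`, inducing the same set, such that `𝔰` and `𝔱` have no common subskeleton.
-/

set_option autoImplicit false

open Set Filter Topology

namespace Pool.Agent.Results.MP_fb95e7_gt.NoCommonSubskeleton

open Pool.Agent.helper68

universe u v w

/-- the poset of countable subsets of `Set (Γ × ℕ)`, ordered by inclusion -/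
abbrev W (Γ : Type v) : Type v := {A : Set (Set (Γ × ℕ)) // A.Countable}

theorem W_directed (Γ : Type v) (A B : W Γ) : ∃ C : W Γ, A ≤ C ∧ B ≤ C :=
  ⟨⟨A.1 ∪ B.1, A.2.union B.2⟩, Set.subset_union_left, Set.subset_union_right⟩

theorem W_isLUB (Γ : Type v) (A : ℕ → W Γ) :
    IsLUB (Set.range A) (⟨⋃ n, (A n).1, Set.countable_iUnion fun n => (A n).2⟩ : W Γ) := by
  constructor
  · rintro _ ⟨n, rfl⟩
    exact Set.subset_iUnion (fun n => (A n).1) n
  · intro B hB
    apply Set.iUnion_subset
    intro n
    exact hB ⟨n, rfl⟩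

variable {K : Type u} [TopologicalSpace K] {Γ : Type v} [PartialOrder Γ]

/-- The same retractions, indexed by `Γ × W Γ` through the first coordinate. -/
def inflate (S : RetractionalSkeleton K Γ) : RetractionalSkeleton K (Γ × W Γ) where
  r p := S.r p.1
  nonempty := by
    obtain ⟨s⟩ := S.nonempty
    exact ⟨(s, ⟨∅, Set.countable_empty⟩)⟩
  directed := by
    rintro ⟨s, A⟩ ⟨t, B⟩
    obtain ⟨q, h1, h2⟩ := S.directed s t
    obtain ⟨C, h3, h4⟩ := W_directed Γ A B
    exact ⟨(q, C), ⟨h1, h3⟩, ⟨h2, h4⟩⟩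
  sigmaComplete := by
    intro s hs
    obtain ⟨t, ht⟩ := S.sigmaComplete (fun n => (s n).1) (fun m n h => (hs h).1)
    refine ⟨(t, ⟨⋃ n, (s n).2.1, Set.countable_iUnion fun n => (s n).2.2⟩), ?_⟩
    rw [isLUB_prod]
    constructor
    · rw [← Set.range_comp]
      exact ht
    · rw [← Set.range_comp]
      exact W_isLUB Γ (fun n => (s n).2)
  continuous_r p := S.continuous_r p.1
  idem p := S.idem p.1
  metrizable p := S.metrizable p.1
  comp_right p q h := S.comp_right p.1 q.1 h.1
  comp_left p q h := S.comp_left p.1 q.1 h.1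
  tendsto_sup := by
    intro s t hs ht x
    apply S.tendsto_sup' (fun n => (s n).1) t.1 (fun m n h => (hs.monotone h).1)
    have := (isLUB_prod.mp ht).1
    rw [← Set.range_comp] at this
    exact this
  tendsto_id := by
    intro x
    have h := S.tendsto_id x
    have h2 : Tendsto (fun p : Γ × W Γ => p.1) atTop atTop := by
      rw [← prod_atTop_atTop_eq]
      exact tendsto_fst
    exact h.comp h2

theorem inflate_inducedSet (S : RetractionalSkeleton K Γ) :
    (inflate S).inducedSet = S.inducedSet := by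
  unfold RetractionalSkeleton.inducedSet
  ext x
  simp only [Set.mem_iUnion]
  constructor
  · rintro ⟨p, hp⟩
    exact ⟨p.1, hp⟩
  · rintro ⟨s, hs⟩
    exact ⟨(s, ⟨∅, Set.countable_empty⟩), hs⟩

/-- Two skeletons with the same induced set and no common subskeleton, for every `K` and every `S`. -/
theorem pair {K : Type u} [TopologicalSpace K]
    {Γ : Type v} [PartialOrder Γ] (S : RetractionalSkeleton K Γ)
    (Λ : Type w) [PartialOrder Λ] (R : RetractionalSkeleton K Λ)
    (hS : IsSubskeleton R S) (hT : IsSubskeleton R (inflate S)) : False := by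
  obtain ⟨Γ₀, -, -, φ, -⟩ := hS
  obtain ⟨Γ₁, -, hcof, ψ, -⟩ := hT
  obtain ⟨s₀⟩ := S.nonempty
  -- each `b : Set (Γ × ℕ)` lies in the second coordinate of some `ψ i`
  have hcov : ∀ b : Set (Γ × ℕ), ∃ i : Λ, b ∈ ((ψ i : Γ × W Γ).2).1 := by
    intro b
    obtain ⟨p, hp, hle⟩ := hcof (s₀, ⟨{b}, Set.countable_singleton b⟩)
    refine ⟨ψ.symm ⟨p, hp⟩, ?_⟩
    rw [ψ.apply_symm_apply]
    exact hle.2 rfl
  choose i hi using hcov
  have henc : ∀ j : Λ, ∃ f : ((ψ j : Γ × W Γ).2).1 → ℕ, Function.Injective f := fun j =>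
    (Set.countable_iff_exists_injective.mp ((ψ j : Γ × W Γ).2).2)
  choose e he using henc
  -- this gives an injection `Set (Γ × ℕ) → Γ × ℕ`
  let F : Set (Γ × ℕ) → Γ × ℕ := fun b => ((φ (i b) : Γ), e (i b) ⟨b, hi b⟩)
  have hF : Function.Injective F := by
    intro b c hbc
    have h1 : (φ (i b) : Γ) = (φ (i c) : Γ) := congrArg Prod.fst hbc
    have h2 : e (i b) ⟨b, hi b⟩ = e (i c) ⟨c, hi c⟩ := congrArg Prod.snd hbc
    have h3 : i b = i c := φ.injective (Subtype.ext h1)
    have h4 : ∀ (j k : Λ) (hj : b ∈ ((ψ j : Γ × W Γ).2).1) (hk : c ∈ ((ψ k : Γ × W Γ).2).1),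
        j = k → e j ⟨b, hj⟩ = e k ⟨c, hk⟩ → b = c := by
      intro j k hj hk hjk hee
      subst hjk
      exact congrArg Subtype.val (he j hee)
    exact h4 _ _ _ _ h3 h2
  exact Function.cantor_injective F hF

/-- **No common subskeleton.** Let `K` be any compact Hausdorff space and `S` any retractional skeleton
on `K`. Then there is a retractional skeleton `T` on `K` inducing the same set as `S`, such that no
retractional skeleton on `K` is, up to re-indexing, a subskeleton of both `S` and `T`. Consequently there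
is also a sequence `U n` (`n ∈ ℕ`) of retractional skeletons on `K`, all inducing that same set, without
a common subskeleton. -/
theorem result {K : Type u} [TopologicalSpace K] [CompactSpace K] [T2Space K]
    {Γ : Type v} [PartialOrder Γ] (S : RetractionalSkeleton K Γ) :
    (∃ (Γ' : Type v) (_ : PartialOrder Γ') (T : RetractionalSkeleton K Γ'),
      T.inducedSet = S.inducedSet ∧
      ¬ ∃ (Λ : Type w) (_ : PartialOrder Λ) (R : RetractionalSkeleton K Λ),
        IsSubskeleton R S ∧ IsSubskeleton R T) ∧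
    (∃ (Δ : ℕ → Type v) (_ : ∀ n, PartialOrder (Δ n)) (U : ∀ n, RetractionalSkeleton K (Δ n)),
      (∀ n, (U n).inducedSet = S.inducedSet) ∧
      ¬ ∃ (Λ : Type w) (_ : PartialOrder Λ) (R : RetractionalSkeleton K Λ),
        ∀ n, IsSubskeleton R (U n)) := by
  constructor
  · refine ⟨Γ × W Γ, inferInstance, inflate S, inflate_inducedSet S, ?_⟩
    rintro ⟨Λ, _, R, h1, h2⟩
    exact pair S Λ R h1 h2
  · let Δ : ℕ → Type v := fun n => Nat.casesOn n Γ (fun _ => Γ × W Γ)
    let inst : ∀ n, PartialOrder (Δ n) := fun n =>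
      match n with
      | 0 => inferInstanceAs (PartialOrder Γ)
      | _ + 1 => inferInstanceAs (PartialOrder (Γ × W Γ))
    let U : ∀ n, @RetractionalSkeleton K _ (Δ n) (inst n) := fun n =>
      match n with
      | 0 => S
      | _ + 1 => inflate S
    refine ⟨Δ, inst, U, ?_, ?_⟩
    · intro n
      cases n with
      | zero => rfl
      | succ n => exact inflate_inducedSet S
    · rintro ⟨Λ, _, R, h⟩
      exact pair S Λ R (h 0) (h 1)

end Pool.Agent.Results.MP_fb95e7_gt.NoCommonSubskeleton
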